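import Pool.Agent.TH179.BE.Final

/-!
# MP_ed9921_ag, Q1: a homologically trivial degeneration of bielliptic surfaces

Let `C_t` be the plane cubic `y^2 w = x^3 + t w^3`, with the automorphism
`T (x, y, w) = (ζ^2 x, ζ^3 y, w)` of order six, and let `X_t = (C_t × ℂ) / (ℤ + ℤ i)`, where
`(c, u) ~ (T c, u - 1)` and `(c, u) ~ (c, u + i)`. For `t ≠ 0` this is a bielliptic surface; for
`t = 0` it is a bundle of cuspidal cubics over the elliptic curve `ℂ / (ℤ + ℤ i)`. The total space
`X` of the family `f : X → ℂ` is a smooth threefold, embedded in `ℂ × ℙ^N` by theta functions, `f`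
is a submersion exactly outside the curve of cusps, and `f` is a `ℤ`-homology fibre bundle: the
cohomology of the curve of cusps with coefficients in the local system of vanishing cycles is zero
(the monodromy `T` on `H_1 (C_t; ℤ)` has `det (1 - T) = 1`).

Since `X` is smooth it is its own normalisation, and `f ∘ π = f` is not smooth.
-/

set_option autoImplicit false

open scoped LinearAlgebra.Projectivization

namespace Pool.Agent.Results.MP_ed9921_ag.BiellipticDegeneration

open Pool.Agent.TH179.BE

/-- There is a closed complex submanifold `X` of dimension three of `ℂ × ℙ^N`, with first projection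
`f : X → ℂ`, such that all fibres of `f` are path connected (and nonempty), `f` is a submersion at
all points over `ℂ ∖ {0}` (so that the fibres over `ℂ ∖ {0}` are smooth projective surfaces), `f` is
a `ℤ`-homology fibre bundle, and `f` is not a submersion at some point over `0`. -/
theorem result : ∃ (ι : Type) (_ : Fintype ι) (X : Set (ℂ × ℙ ℂ (ι → ℂ))),
    IsClosedSubmanifold 3 X ∧ (∀ t : ℂ, IsPathConnected {q : ℙ ℂ (ι → ℂ) | (t, q) ∈ X}) ∧
    (∀ p ∈ X, p.1 ≠ 0 → IsRegularAt 3 X p) ∧ IsZHomologyFiberBundle (proj X) ∧
    ∃ p ∈ X, p.1 = 0 ∧ ¬ IsRegularAt 3 X p :=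
  main

end Pool.Agent.Results.MP_ed9921_ag.BiellipticDegeneration
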